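import Pool.Agent.Helper36.LX.Sheet2
import Pool.Agent.Helper49.ST.Net

/-!
LX, row UNET: star networks through finitely many points of a sphere, with explicit constants.
-/

open MeasureTheory Metric Set Filter Topology
open scoped ENNReal NNReal

namespace H11ST
namespace LX

open Net in
theorem unet_card {d : ℕ} (x : E d) {ρ : ℝ} (hρ : 0 < ρ) {K : ℕ} (hK : 1 ≤ K) {N : Finset (E d)}
    (hN : Sep x ρ (ρ / K) N) : (N.card : ℝ) ≤ (3 * K : ℝ) ^ d := by
  have hK1 : (1 : ℝ) ≤ K := by exact_mod_cast hK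
  have hK0 : (0 : ℝ) < K := by linarith
  have hs : 0 < ρ / K := by positivity
  have hsρ : ρ / K ≤ ρ := div_le_self hρ.le hK1
  have h1 := vol x hs hsρ hN
  have h2 : 0 ≤ (ρ - ρ / K / 2) ^ d := pow_nonneg (by linarith) _
  have h3 : (N.card : ℝ) * (ρ / K / 2) ^ d ≤ (ρ + ρ / K / 2) ^ d := by linarith
  have h4 : (ρ + ρ / K / 2) ^ d ≤ (3 * K : ℝ) ^ d * (ρ / K / 2) ^ d := by
    rw [← mul_pow]
    refine pow_le_pow_left₀ (by positivity) ?_ d
    have h5 : 3 * (K : ℝ) * (ρ / K / 2) = 3 / 2 * ρ := by field_simp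
    rw [h5]
    linarith
  exact le_of_mul_le_mul_right (h3.trans h4) (by positivity)

open Net in
theorem unet_net {d : ℕ} (x : E d) {ρ : ℝ} (hρ : 0 < ρ) {K : ℕ} (hK : 1 ≤ K) :
    ∃ N : Finset (E d), Sep x ρ (ρ / K) N ∧ ∀ y ∈ sphere x ρ, ∃ q ∈ N, dist q y ≤ ρ / K := by
  classical
  have hK1 : (1 : ℝ) ≤ K := by exact_mod_cast hK
  have hK0 : (0 : ℝ) < K := by linarith
  let A : Set ℕ := {n | ∃ N : Finset (E d), Sep x ρ (ρ / K) N ∧ N.card = n}
  have hA0 : A.Nonempty := ⟨0, ∅, ⟨by simp, by simp⟩, rfl⟩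
  have hAb : BddAbove A := by
    refine ⟨⌊(3 * K : ℝ) ^ d⌋₊, ?_⟩
    rintro n ⟨N, hN, rfl⟩
    exact Nat.le_floor (unet_card x hρ hK hN)
  obtain ⟨N, hN, hNc⟩ := Nat.sSup_mem hA0 hAb
  refine ⟨N, hN, fun y hy => ?_⟩
  by_contra hcon
  push Not at hcon
  have hyN : y ∉ N := fun h => by
    have := hcon y h
    rw [dist_self] at this
    have h2 : (0 : ℝ) < ρ / K := by positivity
    linarith
  have hS : Sep x ρ (ρ / K) (insert y N) := by
    refine ⟨fun p hp => ?_, fun p hp q hq hpq => ?_⟩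
    · rcases Finset.mem_insert.1 hp with rfl | hp
      exacts [hy, hN.1 p hp]
    · rcases Finset.mem_insert.1 hp with h1 | h1 <;> rcases Finset.mem_insert.1 hq with h2 | h2
      · exact absurd (h1.trans h2.symm) hpq
      · rw [h1, dist_comm]; exact (hcon q h2).le
      · rw [h2]; exact (hcon p h1).le
      · exact hN.2 p h1 q h2 hpq
  have := le_csSup hAb (show (insert y N).card ∈ A from ⟨_, hS, rfl⟩)
  rw [Finset.card_insert_of_notMem hyN, ← hNc] at this
  omega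

/-- (UNET) -/
theorem unet : LX_UNET := by
  intro d _ x ρ hρ K hK P hP
  have hK1 : (1 : ℝ) ≤ K := by exact_mod_cast hK
  have hK0 : (0 : ℝ) < K := by linarith
  obtain ⟨N, hN, hN2⟩ := unet_net x hρ hK
  obtain ⟨D, hD, hND⟩ := Star.spokes (x := x) hρ.le N fun p hp =>
    sphere_subset_closedBall (hN.1 p hp)
  obtain ⟨D', -, hD', hPD⟩ := hD.extend_many (δ := ρ / K) (by positivity) P
    (fun p hp => sphere_subset_closedBall (hP p hp))
    (fun p hp => by
      obtain ⟨q, hq, h⟩ := hN2 p (hP p hp)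
      exact ⟨q, hND q hq, h⟩)
  refine ⟨D', _, hD', hPD, ?_⟩
  have h1 := mul_le_mul_of_nonneg_right (unet_card x hρ hK hN) hρ.le
  have h2 : (P.card : ℝ) * (ρ / K) = ρ * (P.card / K) := by ring
  rw [h2]
  linarith

end LX
end H11ST
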